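import Pool.Agent.Q193.LT.Ab

/-!
# Modularity and the abelian varieties of `GL₂`-type in the cohomology of `T(x, y, z) = 1`

Let `F` be a totally real number field and `M` the category of motives over `F` for motivated (or absolute
Hodge) cycles, a semisimple abelian category with Tate twists `N ↦ N(a)`. For a separated scheme `X` of
finite type over `F` let `D.H i X` be the object of `M` given by the graded object of the weight filtration
of the cohomology with compact supports `H^i_c(X)`; for smooth projective `X` it is the motive `h^i(X)`.

`Ab A` says that `A` is an abelian variety over `F`, and `Md A` says that if `A` is of `GL₂(M)`-type for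
some number field `M`, then `A` is associated to a Hilbert newform over `F`. Every decomposition of
`h^1(A)` comes from an isogeny `A ∼ B × C`; if `A` is of `GL₂`-type, it is isogenous to a power of a simple
abelian variety of `GL₂`-type (Ribet, as `F` is totally real), so that `B` and `C` are isogenous to powers
of the same variety, and `Md B` and `Md C` imply `Md A`; and `h^1(A)` is a direct factor of `h^1(Y)` for a
curve `Y`. These facts are `IsAb D Ab Md`. The motives of the point `Spec F` are zero or `1`, and no
nonzero `h^1(A)` is a factor of a Tate motive (hypothesis `point`).

`AbFactors D Ab Md N` says that `Md A` is true for all abelian varieties `A` over `F` such that `h^1(A)` is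
isomorphic to a direct factor of a Tate twist of `N`.

**Theorem.** All abelian varieties of `GL₂`-type over `F` are associated to Hilbert newforms if and only
if this is true for the abelian varieties `A` of `GL₂`-type over `F` such that `h^1(A)` is isomorphic to a
direct factor of a Tate twist of `Gr^W H^i_c(T = 1)` for some `i` and some smooth affine cubic
hypersurface `T(x, y, z) = 1`, where `T` is a trilinear form over `F` such that one of the three blocks of
variables has at most three variables (the other two blocks are arbitrary).
-/

set_option autoImplicit false

open CategoryTheory CategoryTheory.Limits AlgebraicGeometry Pool.Agent.Y116.UV Pool.Agent.Z125.UN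
  Pool.Agent.Q193.LT

universe v u

namespace Pool.Agent.Results.MP_326854_nt.CubicFactors

/-- **Modularity and cubic hypersurfaces.** See the explanations above. -/
theorem result {F : Type} [Field F] [NumberField F] [NumberField.IsTotallyReal F] {M : Type u}
    [Category.{v} M] [Abelian M] {D : CompactData F M} (h : IsMotives D) {Ab Md : Sch F → Prop}
    (hA : IsAb D Ab Md) (point : ∀ i, AbFactors D Ab Md (D.H i (aff F F))) :
    (∀ A, Ab A → Md A) ↔
      ∀ (a b c : ℕ) (T : Fin a → Fin b → Fin c → F), (a ≤ 3 ∨ b ≤ 3 ∨ c ≤ 3) →
        ∀ i, AbFactors D Ab Md (D.H i (hypS T)) :=
  ab_iff h hA point

end Pool.Agent.Results.MP_326854_nt.CubicFactors
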