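import Pool.Agent.Q45.ML.Twist
import Pool.Agent.Q45.ML.GC

set_option autoImplicit false

/-!
# Abelian varieties of `GL₂(M)`-type: all twisted `L`-functions are entire if and only if one-sided smoothed sums in the strip

`A` is an abelian variety of `GL₂(M)`-type over the totally real field `F`, `X² - a_v X + d_v ∈ M[X]` the characteristic
polynomial of Frobenius at `v`. For `x` in an index set `X` let `τ_x : M → ℂ` be an embedding, `χ_x` a Hecke character of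
`F`, `L_x(s) = L(A, τ_x, χ_x, s)`. By potential modularity (Taylor) these are meromorphic with functional equation, and by
the converse theorem of Jacquet and Langlands in the form of Booker and Krishnamurthy `A` is modular if and only if the
`L_x` are entire for one `τ` and the characters unramified at all finite places. The theorem: this is equivalent to
one-sided bounds, along one sequence, for absolutely convergent sums at the points of the strip `1 ≤ Re ρ ≤ 3/2`.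
-/

namespace Pool.Agent.Results.MP_326854_nt.EntireTwistsOneSided

open Filter Topology Asymptotics NumberField IsDedekindDomain
open Pool.Agent.Q45.ML Pool.Agent.W189.NF

variable {F : Type} [Field F] [NumberField F] {M : Type} [Field M] [NumberField M]

/-- the norm of a finite place -/
noncomputable def N (v : HeightOneSpectrum (𝓞 F)) : ℝ := Ideal.absNorm v.asIdeal

/-- `α` are the local parameters of the twist by `χ` of the conjugate by `τ` of the system `X² - a_v X + d_v ∈ M[X]`: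
outside the finite set `Sb` the `α_v` are the roots of `X² - χ(v) τ(a_v) X + χ(v)² τ(d_v)`, and all are at most
`N(v)^{1/2}` in absolute value -/
def IsTwist (a d : HeightOneSpectrum (𝓞 F) → M) (τ : M →+* ℂ) (χ : HeightOneSpectrum (𝓞 F) → ℂ)
    (Sb : Finset (HeightOneSpectrum (𝓞 F))) (α : HeightOneSpectrum (𝓞 F) → Fin 2 → ℂ) : Prop :=
  (∀ v ∉ Sb, α v 0 + α v 1 = χ v * τ (a v) ∧ α v 0 * α v 1 = χ v ^ 2 * τ (d v)) ∧
    ∀ v j, ‖α v j‖ ≤ N v ^ (1 / 2 : ℝ)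

/-- the archimedean factor `q^{s/2} ∏_v Γ_ℂ(s + i ν_v)`, `v` over the infinite places, `Γ_ℂ(s) = 2 (2π)^{-s} Γ(s)` -/
noncomputable def Arch (q : ℕ) (ν : InfinitePlace F → ℝ) (s : ℂ) : ℂ :=
  (q : ℂ) ^ (s / 2) * ∏ v : InfinitePlace F, Complex.Gammaℂ (s + ν v * Complex.I)

/-- `L_x` is meromorphic on `ℂ`, equal to the Euler product of the parameters `α_x` for `Re s > 3/2`, and
`Λ_x(s) = q_x^{s/2} ∏_v Γ_ℂ(s + i ν_{x,v}) L_x(s)` satisfies `Λ_x(s) = ε_x Λ_{x̄}(2 - s)` (near `1`, hence everywhere) -/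
structure IsFamily {X : Type} (bar : X → X) (α : X → HeightOneSpectrum (𝓞 F) → Fin 2 → ℂ) (L : X → ℂ → ℂ)
    (q : X → ℕ) (ν : X → InfinitePlace F → ℝ) (ε : X → ℂ) : Prop where
  mero : ∀ x z, MeromorphicAt (L x) z
  euler : ∀ x, ∀ s : ℂ, 3 / 2 < s.re → HasProd (fun v : HeightOneSpectrum (𝓞 F) =>
    ((1 - α x v 0 * (N v : ℂ) ^ (-s)) * (1 - α x v 1 * (N v : ℂ) ^ (-s)))⁻¹) (L x s)
  pos : ∀ x, q x ≠ 0
  fe : ∀ x, ∀ᶠ s in 𝓝[≠] (1 : ℂ), Arch (q x) (ν x) s * L x s =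
    ε x * (Arch (q (bar x)) (ν (bar x)) (2 - s) * L (bar x) (2 - s))

/-- the term at `(v, k)`, `k = z.2 + 1`, of the smoothed sum at `ρ`:
`((α_v^k + β_v^k)/(k N(v)^{kρ})) · e^{iγ k log N(v)/T} / Γ(1 + k log N(v)/T)` -/
noncomputable def term (α : HeightOneSpectrum (𝓞 F) → Fin 2 → ℂ) (ρ : ℂ) (γ T : ℝ)
    (z : HeightOneSpectrum (𝓞 F) × ℕ) : ℂ :=
  (α z.1 0 ^ (z.2 + 1) + α z.1 1 ^ (z.2 + 1)) / ((z.2 + 1) * (N z.1 : ℂ) ^ ((z.2 + 1) * ρ)) *
    (Complex.exp ((γ * ((z.2 + 1) * Real.log (N z.1) / T) : ℝ) * Complex.I) /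
      (Real.Gamma (1 + (z.2 + 1) * Real.log (N z.1) / T) : ℂ))

/-- the smoothed sum at `ρ` -/
noncomputable def S (α : HeightOneSpectrum (𝓞 F) → Fin 2 → ℂ) (ρ : ℂ) (γ T : ℝ) : ℂ := ∑' z, term α ρ γ T z

/-- the constant `Λ(γ) = ∫_0^∞ (e^{-t} - e^{iγt}/Γ(1+t)) dt/t` -/
noncomputable def Lam (γ : ℝ) : ℂ := Pool.Agent.W187.UR.Lam γ

theorem term_eq (α : HeightOneSpectrum (𝓞 F) → Fin 2 → ℂ) (ρ : ℂ) (γ T : ℝ) (z : HeightOneSpectrum (𝓞 F) × ℕ) :
    cterm (fun v : HeightOneSpectrum (𝓞 F) => nrm v) α ρ γ T z = term α ρ γ T z := by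
  unfold cterm term N nrm
  rw [Fin.sum_univ_two]

theorem S_eq (α : HeightOneSpectrum (𝓞 F) → Fin 2 → ℂ) (ρ : ℂ) (γ T : ℝ) :
    csum (fun v : HeightOneSpectrum (𝓞 F) => nrm v) α ρ γ T = S α ρ γ T := by
  unfold csum S
  exact tsum_congr fun z => term_eq α ρ γ T z

theorem result (a d : HeightOneSpectrum (𝓞 F) → M) {X : Type} (τ : X → M →+* ℂ)
    (χ : X → HeightOneSpectrum (𝓞 F) → ℂ) (Sb : X → Finset (HeightOneSpectrum (𝓞 F)))
    (α : X → HeightOneSpectrum (𝓞 F) → Fin 2 → ℂ) (hα : ∀ x, IsTwist a d (τ x) (χ x) (Sb x) (α x))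
    (bar : X → X) (L : X → ℂ → ℂ) (q : X → ℕ) (ν : X → InfinitePlace F → ℝ) (ε : X → ℂ)
    (hL : IsFamily bar α L q ν ε) {γ : ℝ} (hγ : Real.pi / 2 < γ) :
    (∀ x (ρ : ℂ) (T : ℝ), 0 < T → Summable fun z => ‖term (α x) ρ γ T z‖) ∧
    (∀ x (ρ : ℂ), ∃ (m : ℤ) (r : ℂ), meromorphicOrderAt (L x) ρ = m ∧
      Complex.exp r = meromorphicTrailingCoeffAt (L x) ρ ∧
      (fun T : ℝ => S (α x) ρ γ T - (r - m * (Real.log T - Lam γ))) =O[atTop] (fun T : ℝ => 1 / T)) ∧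
    List.TFAE [∀ x, ∃ g : ℂ → ℂ, Differentiable ℂ g ∧ ∀ s : ℂ, 3 / 2 < s.re → g s = L x s,
      ∀ x (ρ : ℂ), ∃ B : ℝ, ∀ᶠ T : ℝ in atTop, (S (α x) ρ γ T).re ≤ B,
      ∀ x (ρ : ℂ), 1 ≤ ρ.re → ρ.re ≤ 3 / 2 → ∃ η > 0, ∃ t : ℕ → ℝ, Tendsto t atTop atTop ∧
        ∀ i, (S (α x) ρ γ (t i)).re ≤ (1 - η) * Real.log (t i)] := by
  have hE : ∀ x, Eul 2 (fun v : HeightOneSpectrum (𝓞 F) => nrm v) (α x) (1 / 2) 1 := fun x =>
    ⟨zero_le_one, two_le_nrm, fun _ hσ => nrm_summable hσ, (hα x).2⟩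
  have h32 : (1 / 2 : ℝ) + 1 = 3 / 2 := by norm_num
  have heul : ∀ x, ∀ s : ℂ, (1 / 2 : ℝ) + 1 < s.re → HasProd (fun v : HeightOneSpectrum (𝓞 F) =>
      ∏ j, (1 - α x v j * (nrm v : ℂ) ^ (-s))⁻¹) (L x s) := by
    intro x s hs
    rw [h32] at hs
    refine (hL.euler x s hs).congr_fun fun v => ?_
    rw [Fin.prod_univ_two, mul_inv]
    rfl
  have hq : ∀ x, (q x : ℂ) ≠ 0 := fun x => Nat.cast_ne_zero.2 (hL.pos x)
  refine ⟨fun x ρ T hT => ?_, fun x ρ => ?_, ?_⟩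
  · have := (hE x).cterm_summable ρ γ hT
    simpa only [term_eq] using this
  · obtain ⟨m, r, h1, h2, h3, -⟩ := (hE x).point (hL.mero x) (heul x) hγ ρ
    simp only [S_eq] at h3
    exact ⟨m, r, h1, h2, h3⟩
  · have := twists_tfae hE hL.mero heul bar (w := 2) (z₀ := 1) (A := fun x => Arch (q x) (ν x))
      (A' := fun x s => ε x * archC (q (bar x) : ℂ) (ν (bar x)) s)
      (fun x z => archC_mero (hq x) (ν x) z)
      (fun x z => (eps_archC (hq (bar x)) (ν (bar x)) (ε x) z).1) (fun x => by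
        filter_upwards [hL.fe x] with s hs
        have e2 : ((2 : ℝ) : ℂ) = 2 := by norm_num
        rw [e2, hs, ← mul_assoc]
        rfl) (fun x z => archC_order (hq x) (ν x) z)
      (fun x z hz => (eps_archC (hq (bar x)) (ν (bar x)) (ε x) z).2 (by linarith)) hγ
    simp only [S_eq, h32, show (2 : ℝ) / 2 = 1 by norm_num] at this
    exact this

end Pool.Agent.Results.MP_326854_nt.EntireTwistsOneSided
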