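import Pool.Agent.Q49.WU.Simple

/-!
# Modularity of abelian varieties of `GL₂`-type and hypergraphs

Let `F` be a totally real number field and `M` the category of motives over `F` for motivated (or absolute
Hodge) cycles, a semisimple abelian category with Tate twists `N ↦ N(a)`. For a separated scheme `X` of
finite type over `ℚ` let `D.H m n X` be the motive `Gr^W_{1+2m} H^n_c(X_F)`. For smooth projective `Y` the
motive `D.H 0 n Y` is `h^1(Y_F)` if `n = 1`, and zero for all other `n`; in odd weight the point `Spec ℚ`
contributes zero (hypothesis `point`).

The motive `R` is of `GL₂`-type (`gl2 R`) if `R` is isomorphic to `h^1(A)` for an abelian variety `A` over `F`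
of `GL₂(L)`-type for some number field `L`, and `md R` says that all such `A` are associated to Hilbert
newforms over `F`. If `A` is of `GL₂`-type, it is isogenous to a power of a simple abelian variety `B` of
`GL₂`-type (Ribet, as `F` is totally real), and `A` is associated to a Hilbert newform if `B` is; this is
the hypothesis `ribet`. Motives of `GL₂`-type have weight one (hypothesis `weight`). The
direct factors of `h^1(Y_F)` are the motives `h^1(A)` for the quotients `A` of the Albanese variety, and
every abelian variety over `F` is a union of connected components of `Y_F` for the scheme `Y = A` over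
`ℚ`; so question Q1 for `F` is the statement `∀ Y, SmoothProj Y → AdmAt D gl2 md 0 Y`.

**Theorem.** All abelian varieties of `GL₂`-type over `F` are associated to Hilbert newforms over `F` if and
only if this is true

1. for the direct factors of `GL₂`-type of the motives `Gr^W_{2a-1} H^n_c((X_H)_F)(a - 1)` of the smooth
   affine cubic hypersurfaces `X_H : ∑_{(p, q, r) ∈ H} x_p y_q z_r = 1` over `ℚ` with coefficients `0` and `1`,
   for all finite sets `H` of triples, where `a` is the number of the variables `x_p`;
2. equivalently, for the direct factors of `GL₂`-type of the motives `Gr^W_{2a-1} H^n_c(T = 1)(a - 1)` for all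
   trilinear forms `T` with rational coefficients in `a` variables `x_p` and any numbers of variables
   `y_q`, `z_r`.
-/

set_option autoImplicit false

open CategoryTheory CategoryTheory.Limits AlgebraicGeometry Pool.Agent.Y116.UV Pool.Agent.Z125.UN
  Pool.Agent.Q193.LT Pool.Agent.Q49.WU

universe v u

namespace Pool.Agent.Results.MP_326854_nt.OddWeightsOfHypergraphs

/-- **Modularity of abelian varieties of `GL₂`-type and hypergraphs.** See the explanations above. -/
theorem result {F : Type} [Field F] [NumberField F] [NumberField.IsTotallyReal F] {M : Type u}
    [Category.{v} M] [Abelian M] {D : WeightData ℚ M} (h : IsWMotives D) {gl2 md : M → Prop}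
    (weight : AdmWeight D gl2) (ribet : Isotypic gl2 md)
    (point : ∀ N, AdmAt D gl2 md N (aff ℚ ℚ)) :
    ((∀ Y : Sch ℚ, SmoothProj Y → AdmAt D gl2 md 0 Y) ↔
      ∀ (a b c : ℕ) (H : Finset (Fin a × Fin b × Fin c)),
        AdmAt D gl2 md (a - 1) (tripS ℚ H)) ∧
    ((∀ Y : Sch ℚ, SmoothProj Y → AdmAt D gl2 md 0 Y) ↔
      ∀ (a b c : ℕ) (T : Fin a → Fin b → Fin c → ℚ), AdmAt D gl2 md (a - 1) (hypS T)) := by
  have h1 := adm_graphs h weight ribet point frac_rat 0
  have h2 := adm_forms h weight ribet point 0
  simp only [zero_add] at h1 h2
  exact ⟨h1, h2⟩

end Pool.Agent.Results.MP_326854_nt.OddWeightsOfHypergraphs
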